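import Pool.Agent.K1H88.DP.Stm

/-! Project DP, piece TOT: the number of all reduced pairs of height at most `T`. -/

set_option autoImplicit false

namespace Pool.Agent.K1H52.DP

open Module NumberField Pool.Agent.K1H88.DP

set_option linter.unusedSectionVars false
set_option linter.unusedVariables false

theorem exists_pow2 {x : ℝ} (hx : 0 < x) : ∃ m : ℤ, x ≤ (2 : ℝ) ^ m ∧ (2 : ℝ) ^ m < 2 * x := by
  obtain ⟨n, h1, h2⟩ := exists_mem_Ioc_zpow hx (one_lt_two (α := ℝ))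
  refine ⟨n + 1, h2, ?_⟩
  rw [zpow_add_one₀ two_ne_zero]
  linarith

theorem exists_one_le {F : Type} [Field F] [NumberField F] {x : F} (hx : IsIntegral ℤ x) (h0 : x ≠ 0) :
    ∃ σ : F →+* ℂ, 1 ≤ ‖σ x‖ := by
  have h1 : (⟨x, hx⟩ : 𝓞 F) ≠ 0 := by
    intro h
    exact h0 (congrArg Subtype.val h)
  obtain ⟨σ, hσ⟩ := NumberField.exists_conjugate_one_le_norm (K := F) h1
  exact ⟨σ, hσ⟩

variable {ι : Type} [Fintype ι] (E : ι → Type) [∀ k, Field (E k)] [∀ k, NumberField (E k)]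

/-- the exponents -/
noncomputable def w (k : ι) : ℕ := 2 * finrank ℚ (E k)

theorem w_pos (k : ι) : 1 ≤ w E k := by
  unfold w
  have := Module.finrank_pos (R := ℚ) (M := E k)
  omega

theorem card_Emb : Fintype.card (Emb E ℂ) = deg E := by
  unfold deg
  rw [Fintype.card_sigma]
  refine Finset.sum_congr rfl fun k _ => ?_
  exact Embeddings.card (E k) ℂ

theorem sum_w : ∑ k, w E k = 2 * deg E := by
  unfold w deg
  rw [Finset.mul_sum]

/-- the counting lemma for a fixed set `J` and a fixed embedding -/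
theorem core {J : Finset ι} {B CS CU : ℝ} {c : ℕ} (hCS : 0 < CS) (hCU : 0 < CU) (i₀ : Emb E ℂ)
    (hc1 : (2 : ℝ) ^ c ≤ 4 * B)
    (hslab : ∀ (R : ι → ℝ) (μ : ℝ), 0 < μ → μ ≤ 2 * (2 * B) → (∀ k ∈ J, 1 ≤ μ * R k) →
      (Slab E J (2 * B) R μ i₀).Finite ∧
        ((Slab E J (2 * B) R μ i₀).ncard : ℝ) ≤ CS * μ ^ 2 * ∏ k ∈ J, R k ^ (2 * finrank ℚ (E k)))
    (hsum : ∀ L : ℝ, 1 ≤ L →
      {a : ι → ℤ | (∀ k, k ∉ J → a k = 0) ∧ (∀ k ∈ J, -(c : ℤ) ≤ a k) ∧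
        ((∑ k ∈ J, w E k * a k : ℤ) : ℝ) ≤ L}.Finite ∧
      ∀ A : Finset (ι → ℤ), (∀ a ∈ A, (∀ k, k ∉ J → a k = 0) ∧ (∀ k ∈ J, -(c : ℤ) ≤ a k) ∧
        ((∑ k ∈ J, w E k * a k : ℤ) : ℝ) ≤ L) →
        ∑ a ∈ A, (2 : ℝ) ^ (∑ k ∈ J, w E k * a k : ℤ) ≤ CU * 2 ^ L * L ^ (J.card - 1))
    (K : ℕ) (Lf : ℕ → ℝ) (hLf : ∀ j, 1 ≤ Lf j)
    (F' : Set ((∀ k, E k) × (∀ k, E k)))
    (hF : ∀ P ∈ F', ∃ (j : ℕ) (a : ι → ℤ), j ≤ c + K ∧ (∀ k, k ∉ J → a k = 0) ∧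
      (∀ k ∈ J, 0 ≤ ((c : ℤ) - j) + a k) ∧ ((∑ k ∈ J, w E k * a k : ℤ) : ℝ) ≤ Lf j ∧
      P ∈ Slab E J (2 * B) (fun k => (2 : ℝ) ^ (a k)) ((2 : ℝ) ^ ((c : ℤ) - j)) i₀) :
    F'.Finite ∧ (F'.ncard : ℝ) ≤ CS * CU * ∑ j ∈ Finset.range (c + K + 1),
      (4 : ℝ) ^ ((c : ℤ) - j) * 2 ^ (Lf j) * (Lf j) ^ (J.card - 1) := by
  classical
  have hfin : ∀ j : ℕ, {a : ι → ℤ | (∀ k, k ∉ J → a k = 0) ∧ (∀ k ∈ J, -(c : ℤ) ≤ a k) ∧
        ((∑ k ∈ J, w E k * a k : ℤ) : ℝ) ≤ Lf j}.Finite := fun j => (hsum (Lf j) (hLf j)).1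
  let A : ℕ → Finset (ι → ℤ) := fun j =>
    (hfin j).toFinset.filter fun a => ∀ k ∈ J, 0 ≤ ((c : ℤ) - j) + a k
  let Sl : ℕ → (ι → ℤ) → Set ((∀ k, E k) × (∀ k, E k)) := fun j a =>
    Slab E J (2 * B) (fun k => (2 : ℝ) ^ (a k)) ((2 : ℝ) ^ ((c : ℤ) - j)) i₀
  have hA : ∀ j, ∀ a ∈ A j, (Sl j a).Finite ∧ ((Sl j a).ncard : ℝ) ≤
      CS * (4 : ℝ) ^ ((c : ℤ) - j) * (2 : ℝ) ^ (∑ k ∈ J, w E k * a k : ℤ) := by
    intro j a ha
    have h2 := (Finset.mem_filter.1 ha).2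
    have hμ : (2 : ℝ) ^ ((c : ℤ) - j) ≤ 2 * (2 * B) := by
      have h3 : (2 : ℝ) ^ ((c : ℤ) - j) ≤ (2 : ℝ) ^ (c : ℤ) :=
        zpow_le_zpow_right₀ one_le_two (by omega)
      rw [zpow_natCast] at h3
      linarith
    obtain ⟨h4, h5⟩ := hslab (fun k => (2 : ℝ) ^ (a k)) ((2 : ℝ) ^ ((c : ℤ) - j)) (by positivity) hμ (by
      intro k hk
      rw [← zpow_add₀ two_ne_zero]
      exact one_le_zpow₀ one_le_two (h2 k hk))
    refine ⟨h4, h5.trans (le_of_eq ?_)⟩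
    have e1 : ((2 : ℝ) ^ ((c : ℤ) - j)) ^ 2 = (4 : ℝ) ^ ((c : ℤ) - j) := by
      rw [← zpow_natCast, ← zpow_mul, mul_comm, zpow_mul]
      norm_num
    have e2 : ∏ k ∈ J, ((2 : ℝ) ^ (a k)) ^ (2 * finrank ℚ (E k)) = (2 : ℝ) ^ (∑ k ∈ J, w E k * a k : ℤ) := by
      have e3 : ∀ T : Finset ι, ∏ k ∈ T, ((2 : ℝ) ^ (a k)) ^ (2 * finrank ℚ (E k)) =
          (2 : ℝ) ^ (∑ k ∈ T, w E k * a k : ℤ) := by
        intro T
        induction T using Finset.induction_on with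
        | empty => simp
        | insert k T hk ih =>
          rw [Finset.prod_insert hk, Finset.sum_insert hk, ih, zpow_add₀ two_ne_zero]
          congr 1
          unfold w
          rw [← zpow_natCast, ← zpow_mul, mul_comm]
      exact e3 J
    rw [e1, e2]
  have hcov : F' ⊆ ⋃ j ∈ Finset.range (c + K + 1), ⋃ a ∈ A j, Sl j a := by
    intro P hP
    obtain ⟨j, a, h1, h2, h3, h4, h5⟩ := hF P hP
    refine Set.mem_biUnion (Finset.mem_coe.2 (Finset.mem_range.2 (by omega : j < c + K + 1))) ?_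
    have ha : a ∈ A j := by
      refine Finset.mem_filter.2 ⟨(hfin j).mem_toFinset.2 ⟨h2, fun k hk => ?_, h4⟩, h3⟩
      have := h3 k hk
      omega
    exact Set.mem_biUnion (Finset.mem_coe.2 ha) h5
  have hUfin : ∀ j, (⋃ a ∈ A j, Sl j a).Finite := fun j =>
    Set.Finite.biUnion (A j).finite_toSet fun a ha => (hA j a ha).1
  have hUfin' : (⋃ j ∈ Finset.range (c + K + 1), ⋃ a ∈ A j, Sl j a).Finite :=
    Set.Finite.biUnion (Finset.range (c + K + 1)).finite_toSet fun j _ => hUfin j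
  refine ⟨hUfin'.subset hcov, ?_⟩
  have h6 : F'.ncard ≤ ∑ j ∈ Finset.range (c + K + 1), ∑ a ∈ A j, (Sl j a).ncard := by
    refine (Set.ncard_le_ncard hcov hUfin').trans ?_
    refine (Finset.set_ncard_biUnion_le _ _).trans ?_
    exact Finset.sum_le_sum fun j _ => Finset.set_ncard_biUnion_le _ _
  calc (F'.ncard : ℝ) ≤ ((∑ j ∈ Finset.range (c + K + 1), ∑ a ∈ A j, (Sl j a).ncard : ℕ) : ℝ) := by
        exact_mod_cast h6
    _ = ∑ j ∈ Finset.range (c + K + 1), ∑ a ∈ A j, ((Sl j a).ncard : ℝ) := by push_cast; rfl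
    _ ≤ ∑ j ∈ Finset.range (c + K + 1), CS * CU *
          ((4 : ℝ) ^ ((c : ℤ) - j) * 2 ^ (Lf j) * (Lf j) ^ (J.card - 1)) := by
        refine Finset.sum_le_sum fun j _ => ?_
        have h7 := (hsum (Lf j) (hLf j)).2 (A j) (fun a ha => by
          have := (Finset.mem_filter.1 ha).1
          exact (hfin j).mem_toFinset.1 this)
        calc ∑ a ∈ A j, ((Sl j a).ncard : ℝ)
            ≤ ∑ a ∈ A j, CS * (4 : ℝ) ^ ((c : ℤ) - j) * (2 : ℝ) ^ (∑ k ∈ J, w E k * a k : ℤ) :=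
              Finset.sum_le_sum fun a ha => (hA j a ha).2
          _ = CS * (4 : ℝ) ^ ((c : ℤ) - j) * ∑ a ∈ A j, (2 : ℝ) ^ (∑ k ∈ J, w E k * a k : ℤ) := by
              rw [Finset.mul_sum]
          _ ≤ CS * (4 : ℝ) ^ ((c : ℤ) - j) * (CU * 2 ^ Lf j * Lf j ^ (J.card - 1)) :=
              mul_le_mul_of_nonneg_left h7 (by positivity)
          _ = _ := by ring
    _ = _ := by rw [← Finset.mul_sum]

/-- the pairs with given zero set and given extremal embedding -/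
def FamJ (B T : ℝ) (J : Finset ι) (i₀ : Emb E ℂ) : Set ((∀ k, E k) × (∀ k, E k)) :=
  {P | (∀ k, IsIntegral ℤ (P.1 k) ∧ IsIntegral ℤ (P.2 k)) ∧ Distinct E P.1 P.2 ∧
    (∀ k, P.1 k = 0 → ∀ σ : E k →+* ℂ, ‖σ (P.2 k)‖ ≤ B) ∧ (∀ k, k ∈ J ↔ P.1 k ≠ 0) ∧
    ∃ (ρ : ι → ℝ) (μ : ℝ), (∀ k, 0 < ρ k) ∧ 0 < μ ∧ μ ≤ B ∧
      ∏ k, ρ k ^ (2 * finrank ℚ (E k)) ≤ T ∧
      ‖i₀.2 (P.1 i₀.1)‖ = μ * ρ i₀.1 ∧
      (∀ i : Emb E ℂ, ‖i.2 (P.1 i.1)‖ ≤ μ * ρ i.1) ∧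
      (∀ i : Emb E ℂ, ‖i.2 (P.2 i.1)‖ ≤ B * ρ i.1 / μ) ∧
      |(i₀.2 (P.2 i₀.1) / i₀.2 (P.1 i₀.1)).re| ≤ 1 / 2}

theorem Fam_subset (B T : ℝ) : Fam E B T ⊆ ⋃ x ∈ (Finset.univ : Finset (Finset ι × Emb E ℂ)),
    FamJ E B T x.1 x.2 := by
  classical
  rintro P ⟨h1, h2, h3, ρ, μ, i₀, h4, h5, h6, h7, h8, h9, h10, h11⟩
  refine Set.mem_biUnion (x := (Finset.univ.filter fun k => P.1 k ≠ 0, i₀))
    (Finset.mem_coe.2 (Finset.mem_univ _)) ?_
  exact ⟨h1, h2, h3, fun k => by simp, ρ, μ, h4, h5, h6, h7, h8, h9, h10, h11⟩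

/-- the facts at a zero -/
theorem zero_facts (hdeg : 3 ≤ deg E) {x y : ∀ k, E k} (hD : Distinct E x y) {k₀ : ι}
    (h0 : x k₀ = 0) : finrank ℚ (E k₀) = 1 ∧ y k₀ ≠ 0 ∧ ∀ k, x k = 0 → k = k₀ := by
  classical
  have hne : ∀ k, Nonempty (E k →+* ℂ) := fun k => by
    have h1 : 0 < Fintype.card (E k →+* ℂ) := by
      rw [Embeddings.card]; exact Module.finrank_pos
    exact Fintype.card_pos_iff.1 h1
  have hpl : ∀ i j : Emb E ℂ, x i.1 = 0 → x j.1 = 0 → i = j := by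
    intro i j hi hj
    by_contra hij
    apply hD i j hij
    unfold pl
    rw [hi, hj, map_zero, map_zero]
    ring
  refine ⟨?_, ?_, ?_⟩
  · rw [← Embeddings.card (E k₀) ℂ, Fintype.card_eq_one_iff_nonempty_unique]
    obtain ⟨σ⟩ := hne k₀
    refine ⟨⟨⟨σ⟩, fun τ => ?_⟩⟩
    have h2 := hpl ⟨k₀, τ⟩ ⟨k₀, σ⟩ h0 h0
    exact eq_of_heq (Sigma.mk.inj h2).2
  · intro hy
    obtain ⟨σ⟩ := hne k₀
    have h1 : 1 < Fintype.card (Emb E ℂ) := by rw [card_Emb]; omega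
    obtain ⟨j, hj⟩ := Fintype.exists_ne_of_one_lt_card h1 ⟨k₀, σ⟩
    apply hD j ⟨k₀, σ⟩ hj
    unfold pl
    simp only
    rw [h0, hy]
    simp
  · intro k hk
    obtain ⟨σ⟩ := hne k₀
    obtain ⟨τ⟩ := hne k
    have h2 := hpl ⟨k, τ⟩ ⟨k₀, σ⟩ hk h0
    exact congrArg Sigma.fst h2

/-- the dyadic data of an element of `FamJ` -/
theorem data {B : ℝ} (hB : 1 ≤ B) {J : Finset ι} {i₀ : Emb E ℂ} {c : ℕ} (hc0 : 2 * B ≤ (2 : ℝ) ^ c)
    {P : (∀ k, E k) × (∀ k, E k)} (hP1 : ∀ k, IsIntegral ℤ (P.1 k) ∧ IsIntegral ℤ (P.2 k))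
    (hP3 : ∀ k, P.1 k = 0 → ∀ σ : E k →+* ℂ, ‖σ (P.2 k)‖ ≤ B) (hJ : ∀ k, k ∈ J ↔ P.1 k ≠ 0)
    {ρ : ι → ℝ} {μ : ℝ} (hρ : ∀ k, 0 < ρ k) (hμ : 0 < μ) (hμB : μ ≤ B)
    (h8 : ‖i₀.2 (P.1 i₀.1)‖ = μ * ρ i₀.1)
    (h9 : ∀ i : Emb E ℂ, ‖i.2 (P.1 i.1)‖ ≤ μ * ρ i.1)
    (h10 : ∀ i : Emb E ℂ, ‖i.2 (P.2 i.1)‖ ≤ B * ρ i.1 / μ)
    (h11 : |(i₀.2 (P.2 i₀.1) / i₀.2 (P.1 i₀.1)).re| ≤ 1 / 2) :
    (∀ k ∈ J, 1 ≤ μ * ρ k) ∧ ∃ (m : ℤ) (a : ι → ℤ), m ≤ c ∧ μ ≤ (2 : ℝ) ^ m ∧ (2 : ℝ) ^ m ≤ 2 * μ ∧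
      (∀ k, k ∉ J → a k = 0) ∧ (∀ k ∈ J, 0 ≤ m + a k) ∧
      (2 : ℝ) ^ (∑ k ∈ J, w E k * a k : ℤ) ≤ 4 ^ (deg E) * ∏ k ∈ J, ρ k ^ (w E k) ∧
      P ∈ Slab E J (2 * B) (fun k => (2 : ℝ) ^ (a k)) ((2 : ℝ) ^ m) i₀ := by
  classical
  have g1 : ∀ k ∈ J, 1 ≤ μ * ρ k := by
    intro k hk
    obtain ⟨σ, hσ⟩ := exists_one_le (hP1 k).1 ((hJ k).1 hk)
    exact hσ.trans (h9 ⟨k, σ⟩)
  obtain ⟨m, hm1, hm2⟩ := exists_pow2 hμ
  choose a ha1 ha2 using fun k => exists_pow2 (hρ k)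
  refine ⟨g1, m, fun k => if k ∈ J then a k else 0, ?_, hm1, hm2.le, fun k hk => if_neg hk, ?_, ?_, ?_⟩
  · by_contra hcon
    push Not at hcon
    have h1 : (2 : ℝ) ^ (c : ℤ) < (2 : ℝ) ^ m := zpow_lt_zpow_right₀ one_lt_two hcon
    rw [zpow_natCast] at h1
    linarith
  · intro k hk
    simp only
    rw [if_pos hk]
    by_contra hcon
    push Not at hcon
    have h1 : (2 : ℝ) ^ (m + a k) < 1 := zpow_lt_one_of_neg₀ one_lt_two hcon
    rw [zpow_add₀ two_ne_zero] at h1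
    have h2 : μ * ρ k ≤ (2 : ℝ) ^ m * (2 : ℝ) ^ (a k) :=
      mul_le_mul hm1 (ha1 k) (hρ k).le (by positivity)
    have := g1 k hk
    linarith
  · have e1 : (∑ k ∈ J, w E k * (if k ∈ J then a k else 0) : ℤ) = ∑ k ∈ J, w E k * a k :=
      Finset.sum_congr rfl fun k hk => by rw [if_pos hk]
    rw [e1]
    have e3 : ∀ S : Finset ι, (2 : ℝ) ^ (∑ k ∈ S, w E k * a k : ℤ) ≤
        2 ^ (∑ k ∈ S, w E k) * ∏ k ∈ S, ρ k ^ (w E k) := by
      intro S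
      induction S using Finset.induction_on with
      | empty => simp
      | insert k S hk ih =>
        rw [Finset.sum_insert hk, Finset.sum_insert hk, Finset.prod_insert hk, zpow_add₀ two_ne_zero,
          pow_add]
        have h1 : (2 : ℝ) ^ ((w E k : ℤ) * a k) ≤ 2 ^ (w E k) * ρ k ^ (w E k) := by
          rw [mul_comm, zpow_mul, zpow_natCast, ← mul_pow]
          exact pow_le_pow_left₀ (by positivity) (ha2 k).le _
        calc (2 : ℝ) ^ ((w E k : ℤ) * a k) * (2 : ℝ) ^ (∑ k ∈ S, w E k * a k : ℤ)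
            ≤ (2 ^ (w E k) * ρ k ^ (w E k)) * (2 ^ (∑ k ∈ S, w E k) * ∏ k ∈ S, ρ k ^ (w E k)) :=
              mul_le_mul h1 ih (by positivity) (by have := hρ k; positivity)
          _ = _ := by ring
    refine (e3 J).trans ?_
    have h4 : (2 : ℝ) ^ (∑ k ∈ J, w E k) ≤ 4 ^ (deg E) := by
      have h5 : ∑ k ∈ J, w E k ≤ 2 * deg E := by
        rw [← sum_w]
        exact Finset.sum_le_sum_of_subset (Finset.subset_univ J)
      calc (2 : ℝ) ^ (∑ k ∈ J, w E k) ≤ 2 ^ (2 * deg E) := pow_le_pow_right₀ one_le_two h5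
        _ = 4 ^ (deg E) := by rw [pow_mul]; norm_num
    refine mul_le_mul_of_nonneg_right h4 (Finset.prod_nonneg fun k _ => ?_)
    have := hρ k
    positivity
  · refine ⟨hP1, fun k hk => ?_, fun k hk σ => ?_, ?_, h11⟩
    · have h0 : P.1 k = 0 := by
        by_contra h
        exact hk ((hJ k).2 h)
      exact ⟨h0, fun σ => (hP3 k h0 σ).trans (by linarith)⟩
    · simp only
      rw [if_pos hk]
      constructor
      · refine (h9 ⟨k, σ⟩).trans ?_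
        exact mul_le_mul hm1 (ha1 k) (hρ k).le (by positivity)
      · refine (h10 ⟨k, σ⟩).trans ?_
        rw [div_le_div_iff₀ hμ (by positivity)]
        simp only
        calc B * ρ k * (2 : ℝ) ^ m ≤ B * (2 : ℝ) ^ (a k) * (2 * μ) :=
              mul_le_mul (mul_le_mul_of_nonneg_left (ha1 k) (by linarith)) hm2.le (by positivity)
                (by positivity)
          _ = 2 * B * (2 : ℝ) ^ (a k) * μ := by ring
    · intro h
      rw [h, norm_zero] at h8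
      have := hρ i₀.1
      have : 0 < μ * ρ i₀.1 := by positivity
      linarith

theorem rpow_logb {x : ℝ} (hx : 0 < x) : (2 : ℝ) ^ (Real.logb 2 x) = x :=
  Real.rpow_logb two_pos (by norm_num) hx

/-- the lower bound for the exponent -/
theorem lower {μ : ℝ} (hμ : 0 < μ) {m : ℤ} (hm : μ ≤ (2 : ℝ) ^ m) {U : ℝ} (hU : 1 ≤ U * μ ^ 2) (hU0 : 0 < U)
    {K : ℕ} (hK : U ≤ (2 : ℝ) ^ K) : -(K : ℤ) ≤ m := by
  by_contra hcon
  push Not at hcon
  have h1 : (2 : ℝ) ^ m ≤ (2 : ℝ) ^ (-(K : ℤ) - 1) := zpow_le_zpow_right₀ one_le_two (by omega)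
  have h2 : μ ≤ (2 : ℝ) ^ (-(K : ℤ) - 1) := hm.trans h1
  have h3 : (2 : ℝ) ^ (-(K : ℤ) - 1) = ((2 : ℝ) ^ K)⁻¹ / 2 := by
    rw [zpow_sub_one₀ two_ne_zero, zpow_neg, zpow_natCast]
    rfl
  rw [h3] at h2
  have hK1 : (1 : ℝ) ≤ (2 : ℝ) ^ K := one_le_pow₀ one_le_two
  have hK0 : (0 : ℝ) < (2 : ℝ) ^ K := by positivity
  have h4 : μ ^ 2 ≤ (((2 : ℝ) ^ K)⁻¹ / 2) ^ 2 := pow_le_pow_left₀ hμ.le h2 2
  have h5 : U * μ ^ 2 ≤ (2 : ℝ) ^ K * (((2 : ℝ) ^ K)⁻¹ / 2) ^ 2 :=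
    mul_le_mul hK h4 (by positivity) (by positivity)
  have h6 : (2 : ℝ) ^ K * (((2 : ℝ) ^ K)⁻¹ / 2) ^ 2 = ((2 : ℝ) ^ K)⁻¹ / 4 := by
    field_simp
    ring
  rw [h6] at h5
  have h7 : ((2 : ℝ) ^ K)⁻¹ ≤ 1 := inv_le_one_of_one_le₀ hK1
  linarith

/-- `1 ≤ T B² μ²` in the first case -/
theorem mu_low {B T μ : ℝ} (hB : 1 ≤ B) (hT : 2 ≤ T) (hμ : 0 < μ) {J : Finset ι} {ρ : ι → ℝ}
    (hρ : ∀ k, 0 < ρ k) (g1 : ∀ k ∈ J, 1 ≤ μ * ρ k) {s v : ℕ} (hs : ∑ k ∈ J, w E k = s + v) (hv : 2 ≤ v)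
    (ht : (∏ k ∈ J, ρ k ^ (w E k)) * μ ^ s ≤ T * B ^ s) (hs2 : s ≤ 2) : 1 ≤ T * B ^ 2 * μ ^ 2 := by
  by_cases h1 : 1 ≤ μ
  · have h2 : 1 ≤ B ^ 2 := one_le_pow₀ hB
    have h3 : 1 ≤ μ ^ 2 := one_le_pow₀ h1
    have h4 : 1 ≤ T * B ^ 2 := by nlinarith
    nlinarith
  · push Not at h1
    have h2 : (1 / μ) ^ (s + v) ≤ ∏ k ∈ J, ρ k ^ (w E k) := by
      rw [← hs, ← Finset.prod_pow_eq_pow_sum]
      refine Finset.prod_le_prod (fun k _ => by positivity) fun k hk => ?_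
      refine pow_le_pow_left₀ (by positivity) ?_ _
      rw [div_le_iff₀ hμ]
      have := g1 k hk
      linarith
    have h3 : (1 / μ) ^ (s + v) * μ ^ s ≤ T * B ^ s :=
      (mul_le_mul_of_nonneg_right h2 (by positivity)).trans ht
    have h4 : (1 / μ) ^ (s + v) * μ ^ s = (1 / μ) ^ v := by
      rw [pow_add, one_div, inv_pow, inv_pow]
      field_simp
    rw [h4] at h3
    have h5 : (1 / μ) ^ 2 ≤ (1 / μ) ^ v := pow_le_pow_right₀ (by rw [le_div_iff₀ hμ]; linarith) hv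
    have h6 : B ^ s ≤ B ^ 2 := pow_le_pow_right₀ hB hs2
    have h7 : (1 / μ) ^ 2 ≤ T * B ^ 2 := by
      refine h5.trans (h3.trans ?_)
      exact mul_le_mul_of_nonneg_left h6 (by linarith)
    rw [one_div, inv_pow, inv_le_iff_one_le_mul₀ (by positivity)] at h7
    linarith

/-- the integer constant -/
theorem exists_c {B : ℝ} (hB : 1 ≤ B) : ∃ c : ℕ, 2 * B ≤ (2 : ℝ) ^ c ∧ (2 : ℝ) ^ c ≤ 4 * B := by
  obtain ⟨m, h1, h2⟩ := exists_pow2 (show (0 : ℝ) < 2 * B by linarith)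
  have hm : 0 ≤ m := by
    by_contra hcon
    push Not at hcon
    have := zpow_lt_one_of_neg₀ (one_lt_two (α := ℝ)) hcon
    linarith
  obtain ⟨c, rfl⟩ := Int.eq_ofNat_of_zero_le hm
  rw [zpow_natCast] at h1 h2
  exact ⟨c, h1, by linarith⟩

theorem exists_K {U : ℝ} (hU : 1 ≤ U) : ∃ K : ℕ, U ≤ (2 : ℝ) ^ K ∧ (K : ℝ) ≤ Real.logb 2 U + 1 := by
  have h0 : 0 ≤ Real.logb 2 U := Real.logb_nonneg one_lt_two hU
  refine ⟨⌈Real.logb 2 U⌉₊, ?_, (Nat.ceil_lt_add_one h0).le⟩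
  calc U = (2 : ℝ) ^ (Real.logb 2 U) := (rpow_logb (by linarith)).symm
    _ ≤ (2 : ℝ) ^ ((⌈Real.logb 2 U⌉₊ : ℕ) : ℝ) := Real.rpow_le_rpow_of_exponent_le one_le_two (Nat.le_ceil _)
    _ = _ := Real.rpow_natCast 2 _

/-- logarithms -/
theorem log_bound {T : ℝ} (hT : 2 ≤ T) {a b : ℝ} (ha : 0 ≤ a) (hb : 0 ≤ b) :
    a * Real.logb 2 T + b ≤ ((a + b) / Real.log 2) * Real.log T := by
  have hl2 : 0 < Real.log 2 := Real.log_pos one_lt_two
  have hlT : Real.log 2 ≤ Real.log T := Real.log_le_log two_pos hT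
  unfold Real.logb
  have h1 : b ≤ b / Real.log 2 * Real.log T := by
    rw [div_mul_eq_mul_div, le_div_iff₀ hl2]
    exact mul_le_mul_of_nonneg_left hlT hb
  calc a * (Real.log T / Real.log 2) + b ≤ a * (Real.log T / Real.log 2) + b / Real.log 2 * Real.log T := by
        linarith
    _ = _ := by ring

theorem case1 (hslab : S_SLAB) (hsum : S_SUM) (hdeg : 3 ≤ deg E) {B : ℝ} (hB : 1 ≤ B) (i₀ : Emb E ℂ) :
    ∃ C : ℝ, 0 < C ∧ ∀ T : ℝ, 2 ≤ T → (FamJ E B T Finset.univ i₀).Finite ∧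
      ((FamJ E B T Finset.univ i₀).ncard : ℝ) ≤ C * T * Real.log T ^ (Fintype.card ι - 1) := by
  classical
  obtain ⟨c, hc0, hc1⟩ := exists_c hB
  obtain ⟨CS, hCS, hS⟩ := hslab ι E (2 * B) (by linarith)
  have hne : (Finset.univ : Finset ι).Nonempty := ⟨i₀.1, Finset.mem_univ _⟩
  obtain ⟨CU, hCU, hU⟩ := hsum ι Finset.univ (w E) c hne (w_pos E)
  have hl2 : 0 < Real.log 2 := Real.log_pos one_lt_two
  set M : ℝ := (1 + 2 * deg E) / Real.log 2 with hM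
  have hM0 : 0 < M := by positivity
  refine ⟨CS * CU * (4 ^ (deg E) * M ^ (Fintype.card ι - 1) * 4 ^ (c + 1)), by positivity, fun T hT => ?_⟩
  have hT0 : 0 < T := by linarith
  have hU1 : 1 ≤ T * B ^ 2 := by
    have : 1 ≤ B ^ 2 := one_le_pow₀ hB
    nlinarith
  obtain ⟨K, hK1, hK2⟩ := exists_K hU1
  have hlT : 1 ≤ Real.logb 2 T := by
    rw [Real.le_logb_iff_rpow_le one_lt_two hT0]
    simpa using hT
  set L : ℝ := Real.logb 2 T + 2 * deg E with hL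
  have hL1 : 1 ≤ L := by
    have : (0 : ℝ) ≤ 2 * deg E := by positivity
    linarith
  obtain ⟨h1, h2⟩ := core E (J := Finset.univ) (B := B) (c := c) hCS hCU i₀ hc1
    (fun R μ h1 h2 h3 => hS Finset.univ R μ i₀ h1 h2 h3) hU K (fun _ => L) (fun _ => hL1)
    (FamJ E B T Finset.univ i₀) (by
      rintro P ⟨p1, p2, p3, p4, ρ, μ, p5, p6, p7, p8, p9, p10, p11, p12⟩
      obtain ⟨g1, m, a, g2, g3, g4, g5, g6, g7, g8⟩ := data E hB hc0 p1 p3 p4 p5 p6 p7 p9 p10 p11 p12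
      have hlow : -(K : ℤ) ≤ m := by
        refine lower p6 g3 (U := T * B ^ 2) ?_ (by linarith) hK1
        refine mu_low E hB hT p6 p5 g1 (s := 0) (v := 2 * deg E) (by rw [sum_w]; ring) (by omega) ?_ (by norm_num)
        simpa [w] using p8
      obtain ⟨j, hj⟩ : ∃ j : ℕ, (j : ℤ) = c - m := ⟨(c - m).toNat, Int.toNat_of_nonneg (by omega)⟩
      have hm : m = (c : ℤ) - j := by omega
      rw [hm] at g8 g6
      refine ⟨j, a, by omega, g5, g6, ?_, g8⟩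
      have h3 : (2 : ℝ) ^ (∑ k, (w E k : ℤ) * a k) ≤ 4 ^ (deg E) * T :=
        g7.trans (mul_le_mul_of_nonneg_left p8 (by positivity))
      rw [hL, ← Real.rpow_le_rpow_left_iff one_lt_two, Real.rpow_add two_pos, rpow_logb hT0,
        Real.rpow_intCast]
      refine h3.trans (le_of_eq ?_)
      have e1 : (2 : ℝ) ^ (2 * (deg E : ℝ)) = 4 ^ (deg E) := by
        rw [Real.rpow_mul zero_le_two]
        norm_num
      rw [e1]; ring)
  refine ⟨h1, h2.trans ?_⟩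
  rw [Finset.card_univ] at *
  have h3 : ∑ j ∈ Finset.range (c + K + 1), (4 : ℝ) ^ ((c : ℤ) - j) ≤ 4 ^ (c + 1) := by
    have e1 : ∀ n : ℕ, ∑ j ∈ Finset.range n, (4 : ℝ) ^ ((c : ℤ) - j) ≤ 4 / 3 * (4 ^ c - (4 : ℝ) ^ ((c : ℤ) - n)) := by
      intro n
      induction n with
      | zero => simp
      | succ n ih =>
        rw [Finset.sum_range_succ]
        have e2 : (4 : ℝ) ^ ((c : ℤ) - n) = 4 * (4 : ℝ) ^ ((c : ℤ) - (n + 1 : ℕ)) := by
          rw [← zpow_one_add₀ four_ne_zero]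
          congr 1
          push_cast
          ring
        rw [e2] at ih ⊢
        linarith
    refine (e1 _).trans ?_
    have e3 : (0 : ℝ) < (4 : ℝ) ^ ((c : ℤ) - (c + K + 1 : ℕ)) := by positivity
    have e4 : (0 : ℝ) < 4 ^ c := by positivity
    rw [pow_succ]
    linarith
  have h4 : (2 : ℝ) ^ L = 4 ^ (deg E) * T := by
    rw [hL, Real.rpow_add two_pos, rpow_logb hT0, Real.rpow_mul zero_le_two]
    norm_num
    ring
  have h5 : L ≤ M * Real.log T := by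
    have := log_bound hT (a := 1) (b := 2 * deg E) zero_le_one (by positivity)
    rw [one_mul] at this
    exact this
  have h6 : L ^ (Fintype.card ι - 1) ≤ (M * Real.log T) ^ (Fintype.card ι - 1) :=
    pow_le_pow_left₀ (by linarith) h5 _
  calc CS * CU * ∑ j ∈ Finset.range (c + K + 1), (4 : ℝ) ^ ((c : ℤ) - j) * 2 ^ L * L ^ (Fintype.card ι - 1)
      = CS * CU * ((2 ^ L * L ^ (Fintype.card ι - 1)) * ∑ j ∈ Finset.range (c + K + 1), (4 : ℝ) ^ ((c : ℤ) - j)) := by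
        congr 1
        rw [Finset.mul_sum]
        exact Finset.sum_congr rfl fun j _ => by ring
    _ ≤ CS * CU * ((4 ^ (deg E) * T * (M * Real.log T) ^ (Fintype.card ι - 1)) * 4 ^ (c + 1)) := by
        refine mul_le_mul_of_nonneg_left ?_ (by positivity)
        rw [h4]
        refine mul_le_mul (mul_le_mul_of_nonneg_left h6 (by positivity)) h3 (Finset.sum_nonneg fun j _ => by positivity) ?_
        have : 0 ≤ Real.log T := Real.log_nonneg (by linarith)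
        positivity
    _ = _ := by
        rw [mul_pow]
        ring

theorem case2 (hslab : S_SLAB) (hsum : S_SUM) (hdeg : 3 ≤ deg E) {B : ℝ} (hB : 1 ≤ B) (i₀ : Emb E ℂ)
    [DecidableEq ι] (k₀ : ι) (hk₀ : finrank ℚ (E k₀) = 1) :
    ∃ C : ℝ, 0 < C ∧ ∀ T : ℝ, 2 ≤ T → (FamJ E B T (Finset.univ.erase k₀) i₀).Finite ∧
      ((FamJ E B T (Finset.univ.erase k₀) i₀).ncard : ℝ) ≤
        C * T * Real.log T ^ (Fintype.card ι - 1) := by
  obtain ⟨c, hc0, hc1⟩ := exists_c hB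
  obtain ⟨CS, hCS, hS⟩ := hslab ι E (2 * B) (by linarith)
  set J : Finset ι := Finset.univ.erase k₀ with hJdef
  have hsplit : ∑ k ∈ J, w E k + w E k₀ = 2 * deg E := by
    rw [← sum_w, hJdef]
    exact Finset.sum_erase_add _ _ (Finset.mem_univ k₀)
  have hwk : w E k₀ = 2 := by unfold w; rw [hk₀]
  have hne : J.Nonempty := by
    rw [Finset.nonempty_iff_ne_empty]
    intro h
    rw [h, Finset.sum_empty, hwk] at hsplit
    omega
  obtain ⟨CU, hCU, hU⟩ := hsum ι J (w E) c hne (w_pos E)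
  have hl2 : 0 < Real.log 2 := Real.log_pos one_lt_two
  have hcard : J.card = Fintype.card ι - 1 := by
    rw [hJdef, Finset.card_erase_of_mem (Finset.mem_univ _), Finset.card_univ]
  have hcard1 : J.card - 1 + 1 = Fintype.card ι - 1 := by
    have : 0 < J.card := Finset.card_pos.2 hne
    omega
  have hlB : 0 ≤ Real.logb 2 B := Real.logb_nonneg one_lt_two hB
  set b : ℝ := 6 * Real.logb 2 B + 2 * deg E + 4 + 2 * c with hb
  have hb0 : 0 ≤ b := by positivity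
  set M : ℝ := (3 + b) / Real.log 2 with hM
  have hM0 : 0 < M := by positivity
  refine ⟨CS * CU * (4 ^ (deg E + 1) * B ^ 2 * M ^ (Fintype.card ι - 1)), by positivity, fun T hT => ?_⟩
  have hT0 : 0 < T := by linarith
  have hU1 : 1 ≤ T * B ^ 2 := by
    have : 1 ≤ B ^ 2 := one_le_pow₀ hB
    nlinarith
  have hU0 : 0 < T * B ^ 2 := by linarith
  obtain ⟨K, hK1, hK2⟩ := exists_K hU1
  have hlT : 1 ≤ Real.logb 2 T := by
    rw [Real.le_logb_iff_rpow_le one_lt_two hT0]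
    simpa using hT
  have hlU : Real.logb 2 (T * B ^ 2) = Real.logb 2 T + 2 * Real.logb 2 B := by
    rw [Real.logb_mul hT0.ne' (by positivity), Real.logb_pow]
    push_cast
    ring
  have hcB : (c : ℝ) ≤ Real.logb 2 B + 2 := by
    have h1 : (c : ℝ) ≤ Real.logb 2 (4 * B) := by
      rw [Real.le_logb_iff_rpow_le one_lt_two (by linarith), Real.rpow_natCast]
      exact hc1
    have h2 : Real.logb 2 (4 * B) = 2 + Real.logb 2 B := by
      rw [Real.logb_mul (by norm_num) (by linarith)]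
      congr 1
      rw [show (4 : ℝ) = 2 ^ (2 : ℕ) by norm_num, Real.logb_pow, Real.logb_self_eq_one one_lt_two]
      norm_num
    linarith
  have hdeg' : (3 : ℝ) ≤ deg E := by exact_mod_cast hdeg
  let Lf : ℕ → ℝ := fun j => Real.logb 2 (T * B ^ 2) + 2 * deg E + 2 - 2 * c + 2 * j
  have hLf : ∀ j, 1 ≤ Lf j := by
    intro j
    have : (0 : ℝ) ≤ 2 * j := by positivity
    simp only [Lf]
    rw [hlU]
    linarith
  have hpow : ∀ j : ℕ, (2 : ℝ) ^ (Lf j) = 4 ^ (deg E + 1) * (T * B ^ 2) * ((4 : ℝ) ^ ((c : ℤ) - j))⁻¹ := by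
    intro j
    have e1 : Lf j = Real.logb 2 (T * B ^ 2) + 2 * ((deg E + 1 : ℕ) : ℝ) + 2 * ((-((c : ℤ) - j) : ℤ) : ℝ) := by
      simp only [Lf]
      push_cast
      ring
    rw [e1, Real.rpow_add two_pos, Real.rpow_add two_pos, rpow_logb hU0, Real.rpow_mul zero_le_two,
      Real.rpow_mul zero_le_two, Real.rpow_natCast, Real.rpow_intCast, zpow_neg]
    have e2 : (2 : ℝ) ^ (2 : ℝ) = 4 := by
      rw [show (2 : ℝ) ^ (2 : ℝ) = (2 : ℝ) ^ (2 : ℕ) from Real.rpow_two 2]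
      norm_num
    rw [e2]
    ring
  obtain ⟨h1, h2⟩ := core E (J := J) (B := B) (c := c) hCS hCU i₀ hc1
    (fun R μ h1 h2 h3 => hS J R μ i₀ h1 h2 h3) hU K Lf hLf
    (FamJ E B T J i₀) (by
      rintro P ⟨p1, p2, p3, p4, ρ, μ, p5, p6, p7, p8, p9, p10, p11, p12⟩
      obtain ⟨g1, m, a, g2, g3, g4, g5, g6, g7, g8⟩ := data E hB hc0 p1 p3 p4 p5 p6 p7 p9 p10 p11 p12
      have hx0 : P.1 k₀ = 0 := by
        by_contra h
        have := (p4 k₀).2 h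
        rw [hJdef] at this
        exact Finset.notMem_erase k₀ _ this
      obtain ⟨-, hy0, -⟩ := zero_facts E hdeg p2 hx0
      obtain ⟨σ, hσ⟩ := exists_one_le (p1 k₀).2 hy0
      have hρ0 : μ ≤ B * ρ k₀ := by
        have := hσ.trans (p11 ⟨k₀, σ⟩)
        simp only at this
        rwa [le_div_iff₀ p6, one_mul] at this
      have hprod : (∏ k ∈ J, ρ k ^ (w E k)) * ρ k₀ ^ 2 ≤ T := by
        have e1 : ∏ k, ρ k ^ (2 * finrank ℚ (E k)) = (∏ k ∈ J, ρ k ^ (w E k)) * ρ k₀ ^ 2 := by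
          rw [← Finset.prod_erase_mul _ _ (Finset.mem_univ k₀), hk₀]
          rfl
        rw [← e1]; exact p8
      have hQ0 : 0 ≤ ∏ k ∈ J, ρ k ^ (w E k) := Finset.prod_nonneg fun k _ => by
        have := p5 k
        positivity
      have hprod2 : (∏ k ∈ J, ρ k ^ (w E k)) * μ ^ 2 ≤ T * B ^ 2 := by
        calc (∏ k ∈ J, ρ k ^ (w E k)) * μ ^ 2 ≤ (∏ k ∈ J, ρ k ^ (w E k)) * (B * ρ k₀) ^ 2 :=
              mul_le_mul_of_nonneg_left (pow_le_pow_left₀ p6.le hρ0 2) hQ0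
          _ = ((∏ k ∈ J, ρ k ^ (w E k)) * ρ k₀ ^ 2) * B ^ 2 := by ring
          _ ≤ T * B ^ 2 := mul_le_mul_of_nonneg_right hprod (by positivity)
      have hlow : -(K : ℤ) ≤ m := by
        refine lower p6 g3 (U := T * B ^ 2) ?_ hU0 hK1
        exact mu_low E hB hT p6 p5 g1 (s := 2) (v := 2 * deg E - 4) (by omega) (by omega) hprod2 le_rfl
      obtain ⟨j, hj⟩ : ∃ j : ℕ, (j : ℤ) = c - m := ⟨(c - m).toNat, Int.toNat_of_nonneg (by omega)⟩
      have hm : m = (c : ℤ) - j := by omega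
      rw [hm] at g8 g6 g4
      refine ⟨j, a, by omega, g5, g6, ?_, g8⟩
      rw [← Real.rpow_le_rpow_left_iff one_lt_two, Real.rpow_intCast, hpow]
      refine g7.trans ?_
      have h4 : (0 : ℝ) < (4 : ℝ) ^ ((c : ℤ) - j) := by positivity
      have h5 : (4 : ℝ) ^ ((c : ℤ) - j) ≤ 4 * μ ^ 2 := by
        have e1 : (4 : ℝ) ^ ((c : ℤ) - j) = ((2 : ℝ) ^ ((c : ℤ) - j)) ^ 2 := by
          rw [← zpow_natCast, ← zpow_mul, mul_comm, zpow_mul]
          norm_num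
        rw [e1]
        calc ((2 : ℝ) ^ ((c : ℤ) - j)) ^ 2 ≤ (2 * μ) ^ 2 := pow_le_pow_left₀ (by positivity) g4 2
          _ = _ := by ring
      rw [← div_eq_mul_inv, le_div_iff₀ h4]
      calc 4 ^ deg E * (∏ k ∈ J, ρ k ^ w E k) * (4 : ℝ) ^ ((c : ℤ) - j)
          ≤ 4 ^ deg E * (∏ k ∈ J, ρ k ^ w E k) * (4 * μ ^ 2) :=
            mul_le_mul_of_nonneg_left h5 (by positivity)
        _ = 4 ^ (deg E + 1) * ((∏ k ∈ J, ρ k ^ (w E k)) * μ ^ 2) := by ring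
        _ ≤ _ := mul_le_mul_of_nonneg_left hprod2 (by positivity))
  refine ⟨h1, h2.trans ?_⟩
  set L' : ℝ := Real.logb 2 (T * B ^ 2) + 2 * deg E + 2 + 2 * (c + K) with hL'
  have hL'1 : (c : ℝ) + K + 1 ≤ L' := by
    rw [hL', hlU]
    have h3 : (0 : ℝ) ≤ c := Nat.cast_nonneg _
    have h4 : (0 : ℝ) ≤ K := Nat.cast_nonneg _
    linarith
  have hL'2 : L' ≤ M * Real.log T := by
    have h3 := log_bound hT (a := 3) (b := b) (by norm_num) hb0
    refine le_trans ?_ h3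
    rw [hL', hb, hlU]
    rw [hlU] at hK2
    linarith
  have hL'0 : 0 ≤ L' := by
    have h3 : (0 : ℝ) ≤ c := Nat.cast_nonneg _
    have h4 : (0 : ℝ) ≤ K := Nat.cast_nonneg _
    linarith
  have hterm : ∀ j ∈ Finset.range (c + K + 1), (4 : ℝ) ^ ((c : ℤ) - j) * 2 ^ (Lf j) * (Lf j) ^ (J.card - 1) ≤
      4 ^ (deg E + 1) * (T * B ^ 2) * L' ^ (J.card - 1) := by
    intro j hj
    rw [hpow]
    have e1 : (4 : ℝ) ^ ((c : ℤ) - j) * (4 ^ (deg E + 1) * (T * B ^ 2) * ((4 : ℝ) ^ ((c : ℤ) - j))⁻¹) =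
        4 ^ (deg E + 1) * (T * B ^ 2) := by
      have : (4 : ℝ) ^ ((c : ℤ) - j) ≠ 0 := by positivity
      field_simp
    rw [e1]
    refine mul_le_mul_of_nonneg_left ?_ (by positivity)
    refine pow_le_pow_left₀ (by linarith [hLf j]) ?_ _
    have h3 : (j : ℝ) ≤ c + K := by
      have : j ≤ c + K := by
        have := Finset.mem_range.1 hj
        omega
      exact_mod_cast this
    have h4 : (0 : ℝ) ≤ c := Nat.cast_nonneg _
    simp only [Lf]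
    rw [hL']
    linarith
  calc CS * CU * ∑ j ∈ Finset.range (c + K + 1), (4 : ℝ) ^ ((c : ℤ) - j) * 2 ^ (Lf j) * (Lf j) ^ (J.card - 1)
      ≤ CS * CU * ∑ j ∈ Finset.range (c + K + 1), 4 ^ (deg E + 1) * (T * B ^ 2) * L' ^ (J.card - 1) :=
        mul_le_mul_of_nonneg_left (Finset.sum_le_sum hterm) (by positivity)
    _ = CS * CU * (4 ^ (deg E + 1) * (T * B ^ 2) * (L' ^ (J.card - 1) * ((c : ℝ) + K + 1))) := by
        rw [Finset.sum_const, Finset.card_range, nsmul_eq_mul]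
        push_cast
        ring
    _ ≤ CS * CU * (4 ^ (deg E + 1) * (T * B ^ 2) * (L' ^ (J.card - 1) * L')) := by
        refine mul_le_mul_of_nonneg_left (mul_le_mul_of_nonneg_left
          (mul_le_mul_of_nonneg_left hL'1 (by positivity)) (by positivity)) (by positivity)
    _ = CS * CU * (4 ^ (deg E + 1) * (T * B ^ 2) * L' ^ (Fintype.card ι - 1)) := by
        rw [← pow_succ, hcard1]
    _ ≤ CS * CU * (4 ^ (deg E + 1) * (T * B ^ 2) * (M * Real.log T) ^ (Fintype.card ι - 1)) := by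
        refine mul_le_mul_of_nonneg_left (mul_le_mul_of_nonneg_left
          (pow_le_pow_left₀ hL'0 hL'2 _) (by positivity)) (by positivity)
    _ = _ := by
        rw [mul_pow]
        ring

theorem t_TOT (hslab : S_SLAB) (hsum : S_SUM) : S_TOT := by
  classical
  intro ι _ E _ _ B hdeg hB
  have key : ∀ x : Finset ι × Emb E ℂ, ∃ C : ℝ, 0 < C ∧ ∀ T : ℝ, 2 ≤ T → (FamJ E B T x.1 x.2).Finite ∧
      ((FamJ E B T x.1 x.2).ncard : ℝ) ≤ C * T * Real.log T ^ (Fintype.card ι - 1) := by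
    rintro ⟨J, i₀⟩
    by_cases h1 : J = Finset.univ
    · subst h1
      exact case1 E hslab hsum hdeg hB i₀
    · by_cases h2 : ∃ k₀, J = Finset.univ.erase k₀ ∧ finrank ℚ (E k₀) = 1
      · obtain ⟨k₀, rfl, hk₀⟩ := h2
        exact case2 E hslab hsum hdeg hB i₀ k₀ hk₀
      · refine ⟨1, one_pos, fun T hT => ?_⟩
        have hemp : FamJ E B T J i₀ = ∅ := by
          rw [Set.eq_empty_iff_forall_notMem]
          rintro P ⟨p1, p2, p3, p4, -⟩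
          obtain ⟨k₀, hk₀⟩ : ∃ k₀, k₀ ∉ J := by
            by_contra hcon
            push Not at hcon
            exact h1 (Finset.eq_univ_iff_forall.2 hcon)
          have hx0 : P.1 k₀ = 0 := by
            by_contra h
            exact hk₀ ((p4 k₀).2 h)
          obtain ⟨f1, -, f3⟩ := zero_facts E hdeg p2 hx0
          apply h2
          refine ⟨k₀, ?_, f1⟩
          ext k
          rw [Finset.mem_erase, p4 k]
          constructor
          · intro h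
            refine ⟨?_, Finset.mem_univ _⟩
            rintro rfl
            exact h hx0
          · rintro ⟨h, -⟩ h0
            exact h (f3 k h0)
        simp only
        rw [hemp]
        refine ⟨Set.finite_empty, ?_⟩
        rw [Set.ncard_empty]
        have : 0 ≤ Real.log T := Real.log_nonneg (by linarith)
        push_cast
        positivity
  choose C hC hC2 using key
  refine ⟨∑ x : Finset ι × Emb E ℂ, C x + 1, ?_, fun T hT => ?_⟩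
  · have : 0 ≤ ∑ x : Finset ι × Emb E ℂ, C x := Finset.sum_nonneg fun x _ => (hC x).le
    linarith
  have hfin : (⋃ x ∈ (Finset.univ : Finset (Finset ι × Emb E ℂ)), FamJ E B T x.1 x.2).Finite :=
    Set.Finite.biUnion (Finset.finite_toSet _) fun x _ => (hC2 x T hT).1
  refine ⟨hfin.subset (Fam_subset E B T), ?_⟩
  have h1 : (Fam E B T).ncard ≤ ∑ x : Finset ι × Emb E ℂ, (FamJ E B T x.1 x.2).ncard :=
    (Set.ncard_le_ncard (Fam_subset E B T) hfin).trans (Finset.set_ncard_biUnion_le _ _)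
  have hlog : 0 ≤ Real.log T := Real.log_nonneg (by linarith)
  calc ((Fam E B T).ncard : ℝ) ≤ ((∑ x : Finset ι × Emb E ℂ, (FamJ E B T x.1 x.2).ncard : ℕ) : ℝ) := by
        exact_mod_cast h1
    _ = ∑ x : Finset ι × Emb E ℂ, ((FamJ E B T x.1 x.2).ncard : ℝ) := by push_cast; rfl
    _ ≤ ∑ x : Finset ι × Emb E ℂ, C x * T * Real.log T ^ (Fintype.card ι - 1) :=
        Finset.sum_le_sum fun x _ => (hC2 x T hT).2
    _ = (∑ x : Finset ι × Emb E ℂ, C x) * T * Real.log T ^ (Fintype.card ι - 1) := by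
        rw [Finset.sum_mul, Finset.sum_mul]
    _ ≤ _ := by
        refine mul_le_mul_of_nonneg_right (mul_le_mul_of_nonneg_right (by linarith) (by linarith))
          (by positivity)

end Pool.Agent.K1H52.DP
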